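import Mathlib

set_option autoImplicit false

namespace Pool.Agent.W667.BQN

theorem part1 {A B : Type} [CommRing A] [CommRing B] (ψ : A →+* B) (M : Submonoid A)
    (h0 : ∀ a, ψ a = 0 → ∃ m ∈ M, m * a = 0) (h1 : ∀ b, ∃ m ∈ M, ∃ a, ψ m * b = ψ a)
    (q' : Ideal B) [q'.IsPrime] (hM : ∀ m ∈ M, ψ m ∉ q') :
    Nonempty (Localization.AtPrime q' ≃+* Localization.AtPrime (q'.comap ψ)) := by
  let _ : Algebra A (Localization.AtPrime q') :=
    ((algebraMap B (Localization.AtPrime q')).comp ψ).toAlgebra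
  have halg : ∀ x : A, algebraMap A (Localization.AtPrime q') x =
      algebraMap B (Localization.AtPrime q') (ψ x) := fun x => rfl
  have hloc : IsLocalization (q'.comap ψ).primeCompl (Localization.AtPrime q') := by
    refine ⟨?_, ?_, ?_⟩
    · rintro ⟨s, hs⟩
      rw [halg]
      exact IsLocalization.map_units (Localization.AtPrime q')
        (⟨ψ s, hs⟩ : q'.primeCompl)
    · intro z
      obtain ⟨⟨b, s⟩, hz⟩ := IsLocalization.surj q'.primeCompl z
      obtain ⟨m, hm, a, ha⟩ := h1 b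
      obtain ⟨m', hm', s', hs'⟩ := h1 s
      have hmem : ψ (m * s') ∉ q' := by
        rw [map_mul, ← hs']
        intro h
        rcases Ideal.IsPrime.mem_or_mem ‹q'.IsPrime› h with h | h
        · exact hM m hm h
        · rcases Ideal.IsPrime.mem_or_mem ‹q'.IsPrime› h with h | h
          · exact hM m' hm' h
          · exact s.2 h
      refine ⟨⟨m' * a, ⟨m * s', hmem⟩⟩, ?_⟩
      change z * algebraMap B (Localization.AtPrime q') (ψ (m * s')) =
        algebraMap B (Localization.AtPrime q') (ψ (m' * a))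
      have hz' : z * algebraMap B (Localization.AtPrime q') (s : B) =
        algebraMap B (Localization.AtPrime q') b := hz
      rw [map_mul, ← hs', map_mul ψ m' a, ← ha, map_mul, map_mul, map_mul, map_mul, ← hz']
      ring
    · intro x y hxy
      rw [halg, halg] at hxy
      obtain ⟨s, hs⟩ := (IsLocalization.eq_iff_exists q'.primeCompl
        (Localization.AtPrime q')).1 hxy
      obtain ⟨m', hm', s', hs'⟩ := h1 s
      have h2 : ψ (s' * (x - y)) = 0 := by
        rw [map_mul, ← hs', map_sub]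
        linear_combination ψ m' * hs
      obtain ⟨m, hm, h3⟩ := h0 _ h2
      have hmem : ψ (m * s') ∉ q' := by
        rw [map_mul, ← hs']
        intro h
        rcases Ideal.IsPrime.mem_or_mem ‹q'.IsPrime› h with h | h
        · exact hM m hm h
        · rcases Ideal.IsPrime.mem_or_mem ‹q'.IsPrime› h with h | h
          · exact hM m' hm' h
          · exact s.2 h
      refine ⟨⟨m * s', hmem⟩, ?_⟩
      change m * s' * x = m * s' * y
      linear_combination h3
  exact ⟨(IsLocalization.algEquiv (q'.comap ψ).primeCompl (Localization.AtPrime q')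
    (Localization.AtPrime (q'.comap ψ))).toRingEquiv⟩

theorem part2 {A B : Type} [CommRing A] [CommRing B] (ψ : A →+* B) (M : Submonoid A)
    (h0 : ∀ a, ψ a = 0 → ∃ m ∈ M, m * a = 0) (h1 : ∀ b, ∃ m ∈ M, ∃ a, ψ m * b = ψ a)
    (q : Ideal A) [hq : q.IsPrime] (hM : ∀ m ∈ M, m ∉ q) :
    ∃ (q' : Ideal B) (_ : q'.IsPrime), q = q'.comap ψ ∧ ∀ m ∈ M, ψ m ∉ q' := by
  have key : ∀ (b : B) (m a m' a' : A), m ∈ M → m' ∈ M → ψ m * b = ψ a → ψ m' * b = ψ a' →
      a ∈ q → a' ∈ q := by
    intro b m a m' a' hm hm' e e' ha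
    have h2 : ψ (m' * a - m * a') = 0 := by
      rw [map_sub, map_mul, map_mul, ← e, ← e']
      ring
    obtain ⟨m'', hm'', h3⟩ := h0 _ h2
    have h4 : m'' * m * a' ∈ q := by
      have : m'' * m * a' = m'' * m' * a := by linear_combination -h3
      rw [this]
      exact q.mul_mem_left _ ha
    rcases hq.mem_or_mem h4 with h | h
    · exact absurd h (hM _ (M.mul_mem hm'' hm))
    · exact h
  let q' : Ideal B :=
    { carrier := {b | ∃ m ∈ M, ∃ a ∈ q, ψ m * b = ψ a}
      add_mem' := by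
        rintro b c ⟨m, hm, a, ha, e⟩ ⟨m', hm', a', ha', e'⟩
        refine ⟨m * m', M.mul_mem hm hm', m' * a + m * a', q.add_mem (q.mul_mem_left _ ha)
          (q.mul_mem_left _ ha'), ?_⟩
        rw [map_mul, map_add, map_mul, map_mul, ← e, ← e']
        ring
      zero_mem' := ⟨1, M.one_mem, 0, q.zero_mem, by simp⟩
      smul_mem' := by
        rintro c b ⟨m, hm, a, ha, e⟩
        obtain ⟨m', hm', a', e'⟩ := h1 c
        refine ⟨m * m', M.mul_mem hm hm', a' * a, q.mul_mem_left _ ha, ?_⟩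
        rw [map_mul, map_mul, ← e, ← e', smul_eq_mul]
        ring }
  have hmem : ∀ (b : B) (m a : A), m ∈ M → ψ m * b = ψ a → (b ∈ q' ↔ a ∈ q) := by
    intro b m a hm e
    constructor
    · rintro ⟨m', hm', a', ha', e'⟩
      exact key b m' a' m a hm' hm e' e ha'
    · intro ha
      exact ⟨m, hm, a, ha, e⟩
  have hprime : q'.IsPrime := by
    refine ⟨?_, ?_⟩
    · intro h
      have h2 : (1 : B) ∈ q' := by rw [h]; trivial
      rw [hmem 1 1 1 M.one_mem (by simp)] at h2
      exact hq.ne_top ((Ideal.eq_top_iff_one q).2 h2)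
    · intro b c hbc
      obtain ⟨m, hm, a, e⟩ := h1 b
      obtain ⟨m', hm', a', e'⟩ := h1 c
      rw [hmem (b * c) (m * m') (a * a') (M.mul_mem hm hm')
        (by rw [map_mul, map_mul, ← e, ← e']; ring)] at hbc
      rcases hq.mem_or_mem hbc with h | h
      · exact Or.inl ((hmem b m a hm e).2 h)
      · exact Or.inr ((hmem c m' a' hm' e').2 h)
  have hcomap : ∀ x, ψ x ∈ q' ↔ x ∈ q := fun x => hmem (ψ x) 1 x M.one_mem (by simp)
  refine ⟨q', hprime, ?_, ?_⟩
  · ext x
    rw [Ideal.mem_comap]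
    exact (hcomap x).symm
  · intro m hm h
    exact hM m hm ((hcomap m).1 h)

theorem gl (A B : Type) [CommRing A] [CommRing B] (ψ : A →+* B) (M : Submonoid A)
    (h0 : ∀ a, ψ a = 0 → ∃ m ∈ M, m * a = 0) (h1 : ∀ b, ∃ m ∈ M, ∃ a, ψ m * b = ψ a) :
    (∀ (q' : Ideal B) [q'.IsPrime], (∀ m ∈ M, ψ m ∉ q') → ∃ (q : Ideal A) (_ : q.IsPrime),
      q = q'.comap ψ ∧ Nonempty (Localization.AtPrime q' ≃+* Localization.AtPrime q)) ∧
    (∀ (q : Ideal A) [q.IsPrime], (∀ m ∈ M, m ∉ q) → ∃ (q' : Ideal B) (_ : q'.IsPrime),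
      q = q'.comap ψ ∧ Nonempty (Localization.AtPrime q ≃+* Localization.AtPrime q')) := by
  refine ⟨fun q' _ hM => ⟨q'.comap ψ, inferInstance, rfl, part1 ψ M h0 h1 q' hM⟩, ?_⟩
  intro q hq hM
  obtain ⟨q', hq', e, h2⟩ := part2 ψ M h0 h1 q hM
  subst e
  obtain ⟨f⟩ := part1 ψ M h0 h1 q' h2
  exact ⟨q', hq', rfl, ⟨f.symm⟩⟩

end Pool.Agent.W667.BQN
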